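import Mathlib
import Pool.Agent.H51.AuerD

set_option autoImplicit false

namespace Pool.Agent.Results.MP_fd050c_an.Counter

open Pool.Agent.H51

theorem result :
    ∃ (E : Type) (_ : NormedAddCommGroup E) (_ : NormedSpace ℝ E) (_ : CompleteSpace E)
      (_ : TopologicalSpace.SeparableSpace E), ¬ FiniteDimensional ℝ E ∧
      ∀ (x : ℕ → E) (f : ℕ → E →L[ℝ] ℝ), (∀ i j, f i (x j) = if i = j then 1 else 0) →
        (Submodule.span ℝ (Set.range x)).topologicalClosure = ⊤ →
        ∃ n, ‖x n‖ ≠ 1 ∨ ‖f n‖ ≠ 1 := by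
  obtain ⟨E, i1, i2, e, he⟩ := Renorm.exists_renorm AuerD.N 1 7 one_pos AuerD.N_bounds
  refine ⟨E, i1, i2, (completeSpace_congr (e := e.symm.toEquiv) e.symm.isUniformEmbedding).2 inferInstance,
    e.surjective.denseRange.separableSpace e.continuous, fun h => AuerC.not_fin
      (e.toLinearEquiv.symm.finiteDimensional), fun x f h1 h2 => ?_⟩
  by_contra hc
  push Not at hc
  refine AuerD.no_complete (fun n => e.symm (x n)) (fun n => (f n).comp (e : AuerC.E →L[ℝ] E)) (fun i j => by
    simp [h1]) (fun n => by rw [← he]; simp [(hc n).1]) (fun n y => ?_) ?_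
  · have := (f n).le_opNorm (e y)
    rw [(hc n).2, one_mul, he] at this
    exact this
  · have hd : Dense (Submodule.span ℝ (Set.range x) : Set E) :=
      Submodule.dense_iff_topologicalClosure_eq_top.2 h2
    have h3 := (e.symm.surjective.denseRange.dense_image e.symm.continuous hd)
    refine h3.mono ?_
    rintro _ ⟨y, hy, rfl⟩
    have h4 := Submodule.mem_map_of_mem (f := (e.symm : E →ₗ[ℝ] AuerC.E)) hy
    rw [Submodule.map_span, ← Set.range_comp] at h4
    exact h4

end Pool.Agent.Results.MP_fd050c_an.Counter
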